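import Pool.Agent.W973.CES.Defs

/-! Project CES (MP_bd0f13_lc), part STT: gadget states from an assignment. -/

set_option autoImplicit false

namespace Pool.Agent.W765.CES

open Pool.Agent.W973.CES Pool.Agent.NPC

theorem flat_cons (a : Lit ℕ × Lit ℕ × Lit ℕ) (φ : CNF) :
    flat (a :: φ) = a.1 :: a.2.1 :: a.2.2 :: flat φ := by
  simp [flat]

theorem lit_eq : ∀ (φ : CNF) (c : ℕ) (hc : c < φ.length), lit φ (3 * c) = (φ[c]).1 ∧
    lit φ (3 * c + 1) = (φ[c]).2.1 ∧ lit φ (3 * c + 2) = (φ[c]).2.2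
  | [], c, hc => by simp at hc
  | a :: φ, 0, _ => by
    unfold lit
    rw [flat_cons]
    exact ⟨rfl, rfl, rfl⟩
  | a :: φ, c + 1, hc => by
    have ih := lit_eq φ c (by simpa using hc)
    unfold lit at ih ⊢
    rw [flat_cons]
    rw [show 3 * (c + 1) = 3 * c + 1 + 1 + 1 by ring]
    rw [show 3 * c + 1 + 1 + 1 + 1 = (3 * c + 1) + 1 + 1 + 1 by ring,
      show 3 * c + 1 + 1 + 1 + 2 = (3 * c + 2) + 1 + 1 + 1 by ring]
    simp only [List.getD_cons_succ, List.getElem_cons_succ]
    exact ih

theorem stt (h : S_TOP) : S_STT := by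
  intro φ hφ
  obtain ⟨τ, hτ⟩ := hφ
  obtain ⟨hn, hvr, -⟩ := h φ
  let st : ℕ → Bool := fun g => if g < n3 φ then decide (τ (lit φ g).2 = (lit φ g).1)
    else τ (lit φ (g - n3 φ)).2
  have hst : ∀ i < n3 φ, (st i = true ↔ τ (lit φ i).2 = (lit φ i).1) := by
    intro i hi
    change (if i < n3 φ then decide (τ (lit φ i).2 = (lit φ i).1)
      else τ (lit φ (i - n3 φ)).2) = true ↔ _
    rw [if_pos hi, decide_eq_true_iff]
  refine ⟨st, ?_, ?_⟩
  · intro c hc
    obtain ⟨h0, h1, h2⟩ := lit_eq φ c hc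
    rcases hτ (φ[c]) (List.getElem_mem hc) with h3 | h3 | h3
    · refine ⟨0, by norm_num, ?_⟩
      rw [add_zero, hst _ (by omega), h0]
      exact h3
    · refine ⟨1, by norm_num, ?_⟩
      rw [hst _ (by omega), h1]
      exact h3
    · refine ⟨2, by norm_num, ?_⟩
      rw [hst _ (by omega), h2]
      exact h3
  · intro i hi
    rw [hst i hi]
    have hge := (hvr i hi).1
    have h1 : st (vr φ i) = τ (lit φ (vr φ i - n3 φ)).2 := by
      change (if vr φ i < n3 φ then decide (τ (lit φ (vr φ i)).2 = (lit φ (vr φ i)).1)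
        else τ (lit φ (vr φ i - n3 φ)).2) = _
      rw [if_neg (by omega)]
    have h2 : (lit φ (vr φ i - n3 φ)).2 = (lit φ i).2 := by
      have h3 : vr φ i - n3 φ = ((flat φ).map Prod.snd).idxOf (lit φ i).2 := by
        unfold vr gv
        omega
      have hi' : i < (flat φ).length := hi
      have h4 : (lit φ i).2 ∈ (flat φ).map Prod.snd := by
        apply List.mem_map_of_mem
        unfold lit
        rw [List.getD_eq_getElem _ _ hi']
        exact List.getElem_mem hi'
      have h5 := List.idxOf_lt_length_of_mem h4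
      have h6 := List.getElem_idxOf h5
      rw [List.getElem_map] at h6
      rw [h3]
      rw [List.length_map] at h5
      have h7 : lit φ (((flat φ).map Prod.snd).idxOf (lit φ i).2) =
          (flat φ)[((flat φ).map Prod.snd).idxOf (lit φ i).2] :=
        List.getD_eq_getElem _ _ h5
      rw [h7]
      exact h6
    rw [h1, h2]

end Pool.Agent.W765.CES
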